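import Pool.Agent.H.MP_c132d1_al.B

set_option autoImplicit false

namespace Pool.Agent.Results.MP_c132d1_al.Yes

open Finset MvPolynomial Pool.Agent.HShift

/-- The index set `J_{m,n}`. -/
abbrev JJ (e m n : ℕ) : Type := {i : Fin e // i.1 ≠ m ∧ i.1 ≠ n}

/-- The map `X_i ↦ t ^ (e + i)`. -/
noncomputable def ph (K : Type) [Field K] (e m n : ℕ) :
    MvPolynomial (JJ e m n) K →ₐ[K] Polynomial K :=
  aeval fun i => Polynomial.X ^ (e + i.1.1)

/-- The dimension of the `j`-th Koszul homology of the elements `a i` of an algebra. -/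
noncomputable def ha (K : Type) [Field K] {α A : Type} [LinearOrder α] [Fintype α] [CommRing A]
    [Algebra K A] (a : α → A) (j : ℕ) : ℕ :=
  hz (fun i => LinearMap.mulLeft K (a i)) j

/-- The `j`-th Betti number of `R ⧸ I`. -/
noncomputable def hq {K α : Type} [Field K] [LinearOrder α] [Fintype α]
    (I : Ideal (MvPolynomial α K)) (j : ℕ) : ℕ :=
  ha K (fun i => Ideal.Quotient.mk I (X i)) j

/-- The Betti number `β_j(m, n)`. -/
noncomputable def beta (K : Type) [Field K] (e m n j : ℕ) : ℕ := hq (RingHom.ker (ph K e m n)) j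

lemma main (K : Type) [Field K] (e n j : ℕ) (he : 6 ≤ e) (hn : n = 4 ∨ n = 5) :
    beta K e 2 n (j + 1) = (j + 1) * (e - 2).choose (j + 2) := by
  let ψ := Ideal.kerLiftAlg (ph K e 2 n)
  have h0 : Function.Injective ψ := Ideal.kerLiftAlg_injective _
  let x := fun i => LinearMap.mulLeft K (Ideal.Quotient.mk (RingHom.ker (ph K e 2 n)) (X i))
  have h1 : ∀ i m, ψ (x i m) = Polynomial.X ^ (e + i.1.1) * ψ m := fun i m => by
    rw [show x i m = _ * m from rfl, map_mul, Ideal.kerLiftAlg_mk]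
    simp [ph]
  let v : JJ e 2 n := ⟨⟨0, by omega⟩, by simp; omega⟩
  let p : JJ e 2 n := ⟨⟨1, by omega⟩, by simp; omega⟩
  let q : JJ e 2 n := ⟨⟨n - 1, by omega⟩, by simp; omega⟩
  let w : JJ e 2 n ⊕ Bool → ℕ := fun
    | .inl i => if i.1.1 = 0 then 0 else e + i.1.1
    | .inr false => 2 * e + 2
    | .inr true => 2 * e + n
  let S := fun s => s = 0 ∨ e ≤ s ∧ s ≠ e + 2 ∧ s ≠ e + n
  have h2 : ∀ m s, ¬ S s → (ψ m).coeff s = 0 := fun m => by
    obtain ⟨a, rfl⟩ := Ideal.Quotient.mk_surjective m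
    induction a using MvPolynomial.induction_on with
    | C a => exact fun s hs => by simp [ψ, Polynomial.coeff_C, (not_or.1 hs).1]
    | add a b h1 h2 => exact fun s hs => by simp [h1 s hs, h2 s hs]
    | mul_X a i h =>
      intro s hs
      rw [mul_comm, map_mul, show ψ (_ * _) = _ from h1 i _, Polynomial.coeff_X_pow_mul']
      have := i.2
      exact ite_eq_right_iff.2 fun _ => h _ (by omega)
  have h3 : ∀ s, ∃ m, S s → ψ m = Polynomial.X ^ s := fun s => by
    induction s using Nat.strong_induction_on with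
    | h s ih =>
      by_cases h3 : s = 0 ∨ ¬ S s
      · exact ⟨1, fun h => by simp [h3.resolve_right (not_not.2 h)]⟩
      obtain ⟨i, h4, h5⟩ : ∃ i : JJ e 2 n, e + i.1.1 ≤ s ∧ S (s - (e + i.1.1)) := by
        by_cases h4 : s < 2 * e
        · exact ⟨⟨⟨s - e, by omega⟩, by simp; omega⟩, by simp; omega⟩
        by_cases h5 : S (s - e)
        · exact ⟨v, by simp [v]; omega⟩
        · exact ⟨p, by simp [p]; omega⟩
      obtain ⟨m, h6⟩ := ih (s - (e + i.1.1)) (by omega)
      exact ⟨x i m, fun _ => by rw [h1, h6 h5, ← pow_add, Nat.add_sub_cancel' h4]⟩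
  choose g h3 using h3
  let π : _ →ₗ[K] _ → K := LinearMap.pi fun b => Polynomial.lcoeff K (w b) ∘ₗ ψ.toLinearMap
  have h4 : ∀ m b, π m b = (ψ m).coeff (w b) := fun _ _ => rfl
  have h5 : ∀ i m, π (x i m) = yy K v p q i (π m) := fun i m => funext fun b => by
    rw [h4, h1, Polynomial.coeff_X_pow_mul']
    have : i.1.1 ≠ 2 ∧ i.1.1 ≠ n := i.2
    have := i.1.2
    rcases b with ⟨⟨l, _⟩, _⟩ | _ | _ <;>
      simp only [yy, LinearMap.pi_apply, DFunLike.ite_apply, LinearMap.add_apply, h4, w, v, p, q,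
        LinearMap.proj_apply, LinearMap.zero_apply, ne_eq, Subtype.ext_iff, Fin.ext_iff] <;>
      split_ifs <;> (try simp only [add_zero, zero_add]) <;>
      first | omega | exact ‹False›.elim | exact congrArg _ (by omega) |
        exact h2 _ _ (by dsimp only [S]; omega)
  have h6 : Fintype.card (JJ e 2 n) = e - 2 := by
    rw [Fintype.card_subtype, show ({i | i.1 ≠ 2 ∧ i.1 ≠ n} : Finset (Fin e)) =
      {⟨2, by omega⟩, ⟨n, by omega⟩}ᶜ by ext; simp [Fin.ext_iff], card_compl,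
      card_pair (by simp; omega), Fintype.card_fin]
  have h7 : p ≠ v := by simp [p, v]
  have h8 : q ≠ v := by simp [q, v]; omega
  refine h6 ▸ hz_yy (x := x) π h7 h8 (by simp [p, q]; omega) (fun i l m => mul_left_comm _ _ _)
    (fun m h => h0 ?_) (fun m => ⟨fun h => ?_, ?_⟩) (fun a => ?_) h5
  · simpa [h] using h1 v m
  · refine ⟨∑ s ∈ (ψ m).support, (ψ m).coeff s • g (s - e), h0 ?_⟩
    rw [h1, map_sum, mul_sum, eq_comm]
    refine (ψ m).as_sum_support_C_mul_X_pow.trans (sum_congr rfl fun s hs => ?_)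
    have h9 : S s := by_contra fun h => Polynomial.mem_support_iff.1 hs (h2 m s h)
    have h10 : ∀ b, w b ≠ s := fun b h' => Polynomial.mem_support_iff.1 hs (h' ▸ congrFun h b)
    have h11 : 2 * e + 2 ≠ s := h10 (.inr false)
    have h12 : 2 * e + n ≠ s := h10 (.inr true)
    have h13 : 0 ≠ s := h10 (.inl v)
    have h14 : s = e ∨ 2 * e ≤ s := by_contra fun h' =>
      h10 (.inl ⟨⟨s - e, by omega⟩, by simp; omega⟩) (by simp only [w]; split_ifs <;> omega)
    rw [map_smul, h3 _ (by omega), mul_smul_comm, ← pow_add, Polynomial.smul_eq_C_mul]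
    exact congrArg (_ * Polynomial.X ^ ·) (show s = e + 0 + (s - e) by omega)
  · rintro ⟨u, rfl⟩
    rw [h5]
    ext (_ | _ | _) <;> simp [yy, h7.symm, h8.symm]
  · have h9 : ∀ b c, w b = w c ↔ b = c := by
      rintro (⟨⟨b, _⟩, _⟩ | _ | _) (⟨⟨c, _⟩, _⟩ | _ | _) <;> simp [w] <;> grind
    refine ⟨∑ b, a b • g (w b), funext fun c => ?_⟩
    rw [h4, map_sum, sum_congr rfl fun b _ => by
      rw [map_smul, h3 (w b) (by rcases b with ⟨⟨_, _⟩, _⟩ | _ | _ <;> simp [w, S] <;> grind)]]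
    simp [-Fintype.sum_sum_type, h9]

theorem result (K : Type) [Field K] (e j : ℕ) (he : 6 ≤ e) (hj : 1 ≤ j) :
    beta K e 2 4 j = j * (e - 2).choose (j + 1) ∧ beta K e 2 5 j = j * (e - 2).choose (j + 1) := by
  obtain ⟨j, rfl⟩ := Nat.exists_eq_add_of_le' hj
  exact ⟨main K e 4 j he (.inl rfl), main K e 5 j he (.inr rfl)⟩

end Pool.Agent.Results.MP_c132d1_al.Yes
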